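import Pool.Agent.Helper93.WC.St

/-! # Project WC, module FER: product expansion modulo l^2 -/

set_option autoImplicit false

namespace Pool.Agent.Helper45.WC

open Finset
open Pool.Agent.Helper93.WC

variable {S : Type*} [CommRing S]

theorem mul_cf (l m : ℕ) (hl : l.Prime) (h1 : 1 ≤ m) (h2 : m < l) :
    (l : ℤ) * cf l m = (-1) ^ (m - 1) * (l.choose m : ℤ) := by
  unfold cf
  have h3 : l ∣ l.choose m := hl.dvd_choose_self (by omega) h2
  have h4 : (l : ℤ) * ((l.choose m / l : ℕ) : ℤ) = (l.choose m : ℤ) := by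
    exact_mod_cast Nat.mul_div_cancel' h3
  calc (l : ℤ) * ((-1) ^ (m - 1) * ((l.choose m / l : ℕ) : ℤ))
      = (-1) ^ (m - 1) * ((l : ℤ) * ((l.choose m / l : ℕ) : ℤ)) := by ring
    _ = _ := by rw [h4]

theorem one_sub_pow (l : ℕ) (hl : l.Prime) (ho : Odd l) (y : S) :
    (1 - y) ^ l = 1 - y ^ l - (l : S) * sT l y := by
  have h0 : (1 - y) ^ l = (-y + 1) ^ l := by ring
  rw [h0, add_pow]
  have hp := hl.pos
  rw [Finset.sum_range_succ, Finset.range_eq_Ico, Finset.sum_eq_sum_Ico_succ_bot hp]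
  unfold sT
  rw [Finset.mul_sum]
  have h1 : ∑ m ∈ Ico (0 + 1) l, (-y) ^ m * 1 ^ (l - m) * (l.choose m : S) =
      - ∑ m ∈ Ico 1 l, (l : S) * (((cf l m : ℤ) : S) * y ^ m) := by
    rw [← Finset.sum_neg_distrib]
    refine Finset.sum_congr rfl fun m hm => ?_
    obtain ⟨hm1, hm2⟩ := Finset.mem_Ico.1 hm
    have h2 := mul_cf l m hl hm1 hm2
    have h3 : (l : S) * ((cf l m : ℤ) : S) = (-1) ^ (m - 1) * (l.choose m : S) := by
      have := congrArg (fun t : ℤ => (t : S)) h2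
      simpa using this
    rw [← mul_assoc, h3, one_pow, mul_one]
    obtain ⟨j, rfl⟩ := Nat.exists_eq_succ_of_ne_zero (show m ≠ 0 by omega)
    rw [Nat.succ_sub_one, neg_pow y (j + 1), pow_succ (-1 : S) j]
    rw [show j.succ = j + 1 from rfl]
    ring
  rw [h1, ho.neg_pow]
  simp
  ring

theorem one_add_pow (l : ℕ) (hl : l.Prime) (ho : Odd l) (y : S) :
    (1 + y) ^ l = 1 + y ^ l - (l : S) * sT l (-y) := by
  have h := one_sub_pow l hl ho (-y)
  rw [ho.neg_pow] at h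
  rw [sub_neg_eq_add, sub_neg_eq_add] at h
  exact h

theorem one_sub_mul_pow (c x : S) (hc : c ^ 2 = 0) (a : ℕ) :
    (1 - c * x) ^ a = 1 - c * (a * x) := by
  induction a with
  | zero => simp
  | succ a ih =>
    rw [pow_succ, ih]
    have h : c * c = 0 := by rw [← pow_two, hc]
    push_cast
    calc (1 - c * (a * x)) * (1 - c * x) = 1 - c * ((a + 1) * x) + (c * c) * (a * x * x) := by ring
      _ = _ := by rw [h]; ring

theorem prod_one_sub (c : S) (hc : c ^ 2 = 0) {K : Type*} (s : Finset K) (x : K → S) :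
    ∏ k ∈ s, (1 - c * x k) = 1 - c * ∑ k ∈ s, x k := by
  classical
  induction s using Finset.induction_on with
  | empty => simp
  | insert k s hk ih =>
    rw [prod_insert hk, sum_insert hk, ih]
    have h : c * c = 0 := by rw [← pow_two, hc]
    calc (1 - c * x k) * (1 - c * ∑ k ∈ s, x k)
        = 1 - c * (x k + ∑ k ∈ s, x k) + (c * c) * (x k * ∑ k ∈ s, x k) := by ring
      _ = _ := by rw [h]; ring

theorem prod_expand (c : S) (hc : c ^ 2 = 0) {K : Type*} (s : Finset K) (a : K → ℕ)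
    (B b t : K → S) (hb : ∀ k, B k * b k = 1) :
    ∏ k ∈ s, (B k - c * t k) ^ a k =
      (∏ k ∈ s, B k ^ a k) * (1 - c * ∑ k ∈ s, (a k : S) * (t k * b k)) := by
  rw [← prod_one_sub c hc, ← prod_mul_distrib]
  refine prod_congr rfl fun k _ => ?_
  rw [← one_sub_mul_pow c (t k * b k) hc (a k), ← mul_pow]
  congr 1
  calc B k - c * t k = B k - c * t k * 1 := by ring
    _ = B k - c * t k * (B k * b k) := by rw [hb]
    _ = _ := by ring

theorem cFER : FER := by
  intro S _ l r hl ho hr hl2 K a y c hA hB hc heq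
  classical
  choose uA hA' using hA
  choose uB hB' using hB
  have hAa : ∀ k, (1 - y k ^ l) * ((uA k)⁻¹ : Sˣ) = 1 := by
    intro k; rw [← hA' k]; exact Units.mul_inv _
  have hBb : ∀ k, (1 + y k ^ l) * ((uB k)⁻¹ : Sˣ) = 1 := by
    intro k; rw [← hB' k]; exact Units.mul_inv _
  have e1 : (∏ k, (1 + y k) ^ a k) ^ l = ∏ k, (1 + y k ^ l - (l : S) * sT l (-y k)) ^ a k := by
    rw [← prod_pow]
    refine prod_congr rfl fun k _ => ?_
    rw [← one_add_pow l hl ho (y k), ← pow_mul, ← pow_mul, mul_comm]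
  have e2 : (∏ k, (1 - y k) ^ a k) ^ l = ∏ k, (1 - y k ^ l - (l : S) * sT l (y k)) ^ a k := by
    rw [← prod_pow]
    refine prod_congr rfl fun k _ => ?_
    rw [← one_sub_pow l hl ho (y k), ← pow_mul, ← pow_mul, mul_comm]
  rw [e1, e2, prod_expand (l : S) hl2 univ a (fun k => 1 + y k ^ l) (fun k => (((uB k)⁻¹ : Sˣ) : S))
    (fun k => sT l (-y k)) hBb,
    prod_expand (l : S) hl2 univ a (fun k => 1 - y k ^ l) (fun k => (((uA k)⁻¹ : Sˣ) : S))
    (fun k => sT l (y k)) hAa] at heq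
  have hUA : IsUnit (∏ k, (1 - y k ^ l) ^ a k) := by
    refine ⟨∏ k, uA k ^ a k, ?_⟩
    rw [Units.coe_prod]
    refine prod_congr rfl fun k _ => ?_
    rw [Units.val_pow_eq_pow_val, hA' k]
  have hUB : IsUnit (∏ k, (1 + y k ^ l) ^ a k) := by
    refine ⟨∏ k, uB k ^ a k, ?_⟩
    rw [Units.coe_prod]
    refine prod_congr rfl fun k _ => ?_
    rw [Units.val_pow_eq_pow_val, hB' k]
  set X := ∑ k, (a k : S) * (sT l (-y k) * (((uB k)⁻¹ : Sˣ) : S)) with hX
  set Y := ∑ k, (a k : S) * (sT l (y k) * (((uA k)⁻¹ : Sˣ) : S)) with hY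
  have e3 : (1 : S) - l * X = 1 - l * Y := by
    refine (hUA.mul hUB).mul_left_cancel ?_
    linear_combination heq
  have e4 : (l : S) * (Y - X) = 0 := by linear_combination e3
  have e5 : ∀ k, (1 - c) * (sT l (y k) * (((uA k)⁻¹ : Sˣ) : S) -
      sT l (-y k) * (((uB k)⁻¹ : Sˣ) : S)) = gT l r (y k) := by
    intro k
    have g1 := mul_neg_geom_sum (y k ^ (2 * l)) (2 ^ (r - 1))
    have g2 : (y k ^ (2 * l)) ^ (2 ^ (r - 1)) = c := by
      rw [← hc k, ← pow_mul]
      congr 1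
      obtain ⟨q, rfl⟩ := Nat.exists_eq_succ_of_ne_zero (show r ≠ 0 by omega)
      rw [Nat.succ_sub_one, pow_succ]
      ring
    rw [g2] at g1
    have g3 : (1 : S) - y k ^ (2 * l) = (1 - y k ^ l) * (1 + y k ^ l) := by
      rw [two_mul, pow_add]; ring
    have g4 : ∑ i ∈ range (2 ^ (r - 1)), (y k ^ (2 * l)) ^ i =
        ∑ i ∈ range (2 ^ (r - 1)), y k ^ (2 * l * i) :=
      sum_congr rfl fun i _ => (pow_mul (y k) (2 * l) i).symm
    rw [g3, g4] at g1
    unfold gT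
    rw [← g1]
    set Z := ∑ i ∈ range (2 ^ (r - 1)), y k ^ (2 * l * i)
    have hA2 := hAa k
    have hB2 := hBb k
    set A := 1 - y k ^ l
    set B := 1 + y k ^ l
    calc A * B * Z * (sT l (y k) * (((uA k)⁻¹ : Sˣ) : S) - sT l (-y k) * (((uB k)⁻¹ : Sˣ) : S))
        = (A * (((uA k)⁻¹ : Sˣ) : S)) * (B * sT l (y k) * Z) -
          (B * (((uB k)⁻¹ : Sˣ) : S)) * (A * sT l (-y k) * Z) := by ring
      _ = (B * sT l (y k) - A * sT l (-y k)) * Z := by rw [hA2, hB2]; ring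
  have e6 : ∑ k, (a k : S) * gT l r (y k) = (1 - c) * (Y - X) := by
    rw [hX, hY, ← sum_sub_distrib, mul_sum]
    refine sum_congr rfl fun k _ => ?_
    rw [← e5 k]
    ring
  rw [e6]
  calc (l : S) * ((1 - c) * (Y - X)) = (1 - c) * (l * (Y - X)) := by ring
    _ = 0 := by rw [e4, mul_zero]

end Pool.Agent.Helper45.WC
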